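import Pool.Agent.W662.SK.StmtsA

set_option autoImplicit false

open scoped InnerProductSpace ENNReal

namespace Pool.Agent.W67.SK

open Pool.Agent.W662.SK

theorem mk_ne_one {L : List (Fin 3 × Bool)} (h : FreeGroup.IsReduced L) (hne : L ≠ []) :
    (FreeGroup.mk L : G3) ≠ 1 := by
  intro h1
  have h2 : (FreeGroup.mk L : G3).toWord = (1 : G3).toWord := by rw [h1]
  rw [FreeGroup.toWord_mk, FreeGroup.isReduced_iff_reduce_eq.1 h, FreeGroup.toWord_one] at h2
  exact hne h2

theorem a4 (h : S_A3) : S_A4 := by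
  intro t h0 h1 L p
  induction L with
  | nil =>
    intro _
    have e : (FreeGroup.mk ([] : List (Fin 3 × Bool)) : G3) = 1 := rfl
    rw [e, map_one]
    rfl
  | cons q L ih =>
    intro hred
    have hred' : FreeGroup.IsReduced (L ++ [p]) := by
      have h9 : List.IsChain _ (q :: (L ++ [p])) := hred
      exact List.IsChain.tail h9
    have e1 : (FreeGroup.mk (q :: L) : G3) = lt q * FreeGroup.mk L := by
      unfold lt
      rw [FreeGroup.mul_mk]; rfl
    have e2 : (FreeGroup.mk ((q :: L) ++ [p]) : G3) = lt q * FreeGroup.mk (L ++ [p]) := by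
      unfold lt
      rw [FreeGroup.mul_mk]; rfl
    rw [e1, map_mul, e2]
    show rp t (lt q) (rp t (FreeGroup.mk L) (dl (lt p))) = _
    rw [ih hred']
    apply (h t h0 h1 q).2.2
    · exact mk_ne_one hred' (by simp)
    · intro hx
      have h2 : (FreeGroup.mk ((q :: L) ++ [p]) : G3) = 1 := by
        rw [e2, hx, mul_inv_cancel]
      exact mk_ne_one hred (by simp) h2

end Pool.Agent.W67.SK
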